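import Mathlib
import Pool.Agent.H73.WMTheory

/-!
Spaces with a Frobenius and a monodromy operator (MP_d037d4_ag).
-/

namespace Pool.H9.WMC

open Module Module.End Pool.H73.WM

/-- A finite-dimensional space with a linear Frobenius `F` and a nilpotent monodromy operator `N`,
`N F = q F N`, all eigenvalues of `F` being Weil numbers of integral weights. -/
structure FN (q : ℕ) (Ω : Type) [Field Ω] [CharZero Ω] where
  /-- The space. -/
  V : Type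
  [acg : AddCommGroup V]
  [mod : Module Ω V]
  [fin : FiniteDimensional Ω V]
  /-- Frobenius. -/
  F : V →ₗ[Ω] V
  /-- Monodromy. -/
  N : V →ₗ[Ω] V
  F_inj : ∀ x, F x = 0 → x = 0
  N_nilp : IsNilpotent N
  NF : ∀ x, N (F x) = (q : Ω) • F (N x)
  mixed : ∀ (α : Ω) (x : V), x ≠ 0 → F x = α • x → ∃ w : ℤ, IsWeil q α w

attribute [instance] FN.acg FN.mod FN.fin

variable {q : ℕ} {Ω : Type} [Field Ω] [CharZero Ω]

/-- Weight-monodromy of weight `w`: on the `j`-th graded piece of the monodromy filtration (which is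
stable under `F`), every eigenvalue of `F` is a Weil number of weight `w + j`. -/
def FN.WM (M : FN q Ω) (w : ℤ) : Prop :=
  ∃ L : ℤ → Submodule Ω M.V, IsMonodromyFiltration M.N L ∧ (∀ j, ∀ x ∈ L j, M.F x ∈ L j) ∧
    ∀ j, ∀ x ∈ L j, x ∉ L (j - 1) → ∀ α : Ω, M.F x - α • x ∈ L (j - 1) → IsWeil q α (w + j)

/-- The part of weight `v`. -/
def FN.wt (M : FN q Ω) (v : ℤ) : Submodule Ω M.V := GS M.F {α : Ω | IsWeil q α v}

/-- `N^n` maps the part of weight `w + n` isomorphically to the part of weight `w - n`. -/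
def FN.Pur (M : FN q Ω) (w : ℤ) : Prop :=
  ∀ n : ℕ, (∀ x ∈ M.wt (w + n), (M.N ^ n) x = 0 → x = 0) ∧
    ∀ y ∈ M.wt (w - n), ∃ x ∈ M.wt (w + n), (M.N ^ n) x = y

/-- Linear maps compatible with `F` and `N`. -/
structure FN.IsHom (M M' : FN q Ω) (f : M.V →ₗ[Ω] M'.V) : Prop where
  F : ∀ x, f (M.F x) = M'.F (f x)
  N : ∀ x, f (M.N x) = M'.N (f x)

/-- `M'` is the Tate twist `M (-1)`. -/
def FN.Twist (M M' : FN q Ω) : Prop :=
  ∃ e : M.V ≃ₗ[Ω] M'.V, (∀ x, M'.F (e x) = (q : Ω) • e (M.F x)) ∧ ∀ x, M'.N (e x) = e (M.N x)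

/-- After replacing the Frobenius maps by positive powers (and `N` by a nonzero multiple) `M` is a
direct summand of `M'`. -/
def FN.Summand {q q' : ℕ} (M : FN q Ω) (M' : FN q' Ω) : Prop :=
  ∃ (m n : ℕ) (c : Ω) (j : M.V →ₗ[Ω] M'.V) (r : M'.V →ₗ[Ω] M.V), 0 < m ∧ 0 < n ∧
    q ^ m = q' ^ n ∧ c ≠ 0 ∧ (∀ x, r (j x) = x) ∧
    (∀ x, j ((M.F ^ m) x) = (M'.F ^ n) (j x)) ∧ (∀ y, r ((M'.F ^ n) y) = (M.F ^ m) (r y)) ∧
    (∀ x, j (M.N x) = c • M'.N (j x)) ∧ (∀ y, r (c • M'.N y) = M.N (r y))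

/-! ### Statements of the modules -/

/-- WMP -/
def WMPStmt : Prop := ∀ {q : ℕ} {Ω : Type} [Field Ω] [CharZero Ω] [IsAlgClosed Ω], 1 < q →
  ∀ (M : FN q Ω) (w : ℤ), M.WM w ↔ M.Pur w

/-- FIV: the five lemma. -/
def FIVStmt : Prop := ∀ {q : ℕ} {Ω : Type} [Field Ω] [CharZero Ω] [IsAlgClosed Ω], 1 < q →
  ∀ (A B C D E : FN q Ω) (f : A.V →ₗ[Ω] B.V) (g : B.V →ₗ[Ω] C.V) (h : C.V →ₗ[Ω] D.V)
    (l : D.V →ₗ[Ω] E.V), A.IsHom B f → B.IsHom C g → C.IsHom D h → D.IsHom E l →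
    Function.Exact f g → Function.Exact g h → Function.Exact h l →
    ∀ w : ℤ, A.Pur w → B.Pur w → D.Pur w → E.Pur w → C.Pur w

/-- TWI: Tate twists. -/
def TWIStmt : Prop := ∀ {q : ℕ} {Ω : Type} [Field Ω] [CharZero Ω] [IsAlgClosed Ω], 1 < q →
  ∀ (M M' : FN q Ω), M.Twist M' → ∀ w : ℤ, M.Pur w ↔ M'.Pur (w + 2)

/-- SUM: direct summands. -/
def SUMStmt : Prop := ∀ {q q' : ℕ} {Ω : Type} [Field Ω] [CharZero Ω] [IsAlgClosed Ω], 1 < q →
  1 < q' → ∀ (M : FN q Ω) (M' : FN q' Ω), M.Summand M' → ∀ w : ℤ, M'.Pur w → M.Pur w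

end Pool.H9.WMC
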