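import Mathlib

/-!
Predicates on algebras over a field which satisfy the two-out-of-three property for closed and open
decompositions (MP_d037d4_ag).
-/

namespace Pool.H9.WMC

open MvPolynomial

/-- A predicate on the algebras over a field `k`. -/
abbrev Pred (k : Type) [Field k] : Type 1 :=
  ∀ (A : Type) [CommRing A] [Algebra k A], Prop

/-- The two-out-of-three property for the decomposition of `Spec A` into the closed subscheme
`Spec A/h` and the open subscheme `Spec A_h`, invariance under isomorphisms and under products with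
the affine line, and the descent from the product with the multiplicative group. -/
structure Good {k : Type} [Field k] (P : Pred k) : Prop where
  iso : ∀ (A B : Type) [CommRing A] [Algebra k A] [CommRing B] [Algebra k B],
    (A ≃ₐ[k] B) → P A → P B
  closed : ∀ (A : Type) [CommRing A] [Algebra k A] (h : A), P A → P (Localization.Away h) →
    P (A ⧸ Ideal.span {h})
  opn : ∀ (A : Type) [CommRing A] [Algebra k A] (h : A), P A → P (A ⧸ Ideal.span {h}) →
    P (Localization.Away h)
  total : ∀ (A : Type) [CommRing A] [Algebra k A] (h : A), Algebra.FiniteType k A →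
    P (A ⧸ Ideal.span {h}) → P (Localization.Away h) → P A
  line : ∀ (A : Type) [CommRing A] [Algebra k A], P A → P (Polynomial A)
  unline : ∀ (A : Type) [CommRing A] [Algebra k A], P (Polynomial A) → P A
  gm : ∀ (A : Type) [CommRing A] [Algebra k A],
    P (Localization.Away (Polynomial.X : Polynomial A)) → P A

/-- The relation `∑ q_i y_i = 1`. -/
noncomputable def rel {A : Type} [CommRing A] {n : ℕ} (q : Fin n → A) : MvPolynomial (Fin n) A :=
  (∑ i, C (q i) * X i) - 1

/-- The algebra `A[y_1, ..., y_n] / (∑ q_i y_i - 1)`. -/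
abbrev E {A : Type} [CommRing A] {n : ℕ} (q : Fin n → A) : Type :=
  MvPolynomial (Fin n) A ⧸ Ideal.span {rel q}

/-- The first `j` members of a family. -/
def pre {A : Type} {n : ℕ} (q : Fin n → A) (j : ℕ) (hj : j ≤ n) : Fin j → A :=
  fun i => q (Fin.castLE hj i)

/-- `A / (q_1, ..., q_n)`. -/
abbrev Quo {A : Type} [CommRing A] {n : ℕ} (q : Fin n → A) : Type :=
  A ⧸ Ideal.span (Set.range q)

variable {k : Type} [Field k]

/-- The bilinear form with coefficients `c_e`. -/
noncomputable def bil {r a b : ℕ} (c : Fin r → Fin a → Fin b → k) (e : Fin r) :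
    MvPolynomial (Fin a ⊕ Fin b) k :=
  ∑ i, ∑ j, C (c e i j) * X (Sum.inl i) * X (Sum.inr j)

/-- The coordinate ring of `{(x, z) : c_e (x, z) = 0 for all e}` in `k^a × k^b`. -/
abbrev Sec {r a b : ℕ} (c : Fin r → Fin a → Fin b → k) : Type := Quo (bil c)

/-- The trilinear form with coefficients `c`. -/
noncomputable def tri {r a b : ℕ} (c : Fin r → Fin a → Fin b → k) :
    MvPolynomial (Fin r ⊕ Fin a ⊕ Fin b) k :=
  ∑ e, ∑ i, ∑ j, C (c e i j) * X (Sum.inl e) * X (Sum.inr (Sum.inl i)) * X (Sum.inr (Sum.inr j))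

/-- The coordinate ring of the smooth affine hypersurface `T (y, x, z) = 1`. -/
abbrev Cub {r a b : ℕ} (c : Fin r → Fin a → Fin b → k) : Type :=
  MvPolynomial (Fin r ⊕ Fin a ⊕ Fin b) k ⧸ Ideal.span {tri c - 1}

/-- The coordinate ring of the cubic cone `T (y, x, z) = 0`. -/
abbrev Cone {r a b : ℕ} (c : Fin r → Fin a → Fin b → k) : Type :=
  MvPolynomial (Fin r ⊕ Fin a ⊕ Fin b) k ⧸ Ideal.span {tri c}

/-- All coefficients belong to `S`. -/
def Coef (S : Set k) {r a b : ℕ} (c : Fin r → Fin a → Fin b → k) : Prop :=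
  ∀ e i j, c e i j ∈ S

/-- Linear sections (of any codimension) of `ℙ^{m-1} × ℙ^{b-1}`. -/
def ClassB (P : Pred k) (S : Set k) (m : ℕ) : Prop :=
  ∀ (r b : ℕ) (c : Fin r → Fin m → Fin b → k), Coef S c → P (Sec c)

/-- Linear sections of codimension `m` of `ℙ^{a-1} × ℙ^{b-1}`. -/
def ClassC (P : Pred k) (S : Set k) (m : ℕ) : Prop :=
  ∀ (a b : ℕ) (c : Fin m → Fin a → Fin b → k), Coef S c → P (Sec c)

/-- The smooth affine hypersurfaces `T (y, x, z) = 1`, with `m` variables `y`. -/
def ClassD (P : Pred k) (S : Set k) (m : ℕ) : Prop :=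
  ∀ (a b : ℕ) (c : Fin m → Fin a → Fin b → k), Coef S c → P (Cub c)

/-- The cubic cones `T (y, x, z) = 0`, with `m` variables `y`. -/
def ClassZ (P : Pred k) (S : Set k) (m : ℕ) : Prop :=
  ∀ (a b : ℕ) (c : Fin m → Fin a → Fin b → k), Coef S c → P (Cone c)

/-! ### Statements of the modules -/

/-- LIN: products with affine spaces, the multiplicative group, the zero ring, other models of
`A/h` and `A_h`. -/
structure LinStmt (P : Pred k) : Prop where
  closed' : ∀ (A B Q : Type) [CommRing A] [Algebra k A] [CommRing B] [Algebra k B] [CommRing Q]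
    [Algebra k Q] [Algebra A B] [IsScalarTower k A B] (h : A) [IsLocalization.Away h B]
    (f : A →ₐ[k] Q), Function.Surjective f → RingHom.ker f = Ideal.span {h} →
    P A → P B → P Q
  opn' : ∀ (A B Q : Type) [CommRing A] [Algebra k A] [CommRing B] [Algebra k B] [CommRing Q]
    [Algebra k Q] [Algebra A B] [IsScalarTower k A B] (h : A) [IsLocalization.Away h B]
    (f : A →ₐ[k] Q), Function.Surjective f → RingHom.ker f = Ideal.span {h} →
    P A → P Q → P B
  total' : ∀ (A B Q : Type) [CommRing A] [Algebra k A] [CommRing B] [Algebra k B] [CommRing Q]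
    [Algebra k Q] [Algebra A B] [IsScalarTower k A B] (h : A) [IsLocalization.Away h B]
    (f : A →ₐ[k] Q), Algebra.FiniteType k A → Function.Surjective f →
    RingHom.ker f = Ideal.span {h} → P Q → P B → P A
  mv : ∀ (A : Type) [CommRing A] [Algebra k A] (ι : Type) [Finite ι],
    P A → P (MvPolynomial ι A)
  unmv : ∀ (A : Type) [CommRing A] [Algebra k A] (ι : Type) [Finite ι],
    P (MvPolynomial ι A) → P A
  gm' : ∀ (A : Type) [CommRing A] [Algebra k A],
    P A → P (Localization.Away (Polynomial.X : Polynomial A))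
  zero : ∀ (A B : Type) [CommRing A] [Algebra k A] [CommRing B] [Algebra k B], P A →
    Subsingleton B → P B

def LINStmt : Prop := ∀ {k : Type} [Field k] (P : Pred k), Good P → LinStmt P

/-- ECL: `E(A; q_0, ..., q_n) / q_0 ≅ E(A/q_0; q_1, ..., q_n)[y]`. -/
def ECLStmt : Prop := ∀ {k : Type} [Field k] (A : Type) [CommRing A] [Algebra k A] (n : ℕ)
  (q : Fin (n + 1) → A),
  Nonempty ((E q ⧸ Ideal.span {algebraMap A (E q) (q 0)}) ≃ₐ[k]
    Polynomial (E (fun i : Fin n => Ideal.Quotient.mk (Ideal.span {q 0}) (q i.succ))))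

/-- EOP: `E(A; q_0, ..., q_n)_{q_0} ≅ A_{q_0}[y_1, ..., y_n]`. -/
def EOPStmt : Prop := ∀ {k : Type} [Field k] (A : Type) [CommRing A] [Algebra k A] (n : ℕ)
  (q : Fin (n + 1) → A),
  Nonempty (Localization.Away (algebraMap A (E q) (q 0)) ≃ₐ[k]
    MvPolynomial (Fin n) (Localization.Away (q 0)))

/-- EPR: the quotients of `A` by the members of a family, and the bundles `E`. -/
def EPRStmt : Prop := ∀ {k : Type} [Field k] (P : Pred k), Good P →
  ∀ (A : Type) [CommRing A] [Algebra k A] (n : ℕ) (q : Fin n → A), Algebra.FiniteType k A → P A →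
  ((∀ (j : ℕ) (hj : j ≤ n), P (E (pre q j hj))) ↔ ∀ (j : ℕ) (hj : j ≤ n), P (Quo (pre q j hj)))

/-- FLA: `T = 1` as a bundle over `(x, z)` and (after a permutation of the variables) over
`(y, z)`. -/
def FLAStmt : Prop := ∀ {k : Type} [Field k] (r a b : ℕ) (c : Fin r → Fin a → Fin b → k),
  Nonempty (Cub c ≃ₐ[k] E (bil c)) ∧
  Nonempty (Cub c ≃ₐ[k] Cub (fun (i : Fin a) (e : Fin r) (j : Fin b) => c e i j))

/-- PAD: omitting the variables and forms which do not occur. -/
def PADStmt : Prop := ∀ {k : Type} [Field k] (P : Pred k), Good P →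
  ∀ (r a b s : ℕ) (c : Fin (r + s) → Fin a → Fin b → k),
  (∀ (e : Fin (r + s)) i j, r ≤ (e : ℕ) → c e i j = 0) →
  ((P (Sec c) ↔ P (Sec (fun e : Fin r => c (Fin.castAdd s e)))) ∧
   (P (Cub c) ↔ P (Cub (fun e : Fin r => c (Fin.castAdd s e)))) ∧
   (P (Sec (fun (i : Fin a) (e : Fin (r + s)) (j : Fin b) => c e i j)) ↔
    P (Sec (fun (i : Fin a) (e : Fin r) (j : Fin b) => c (Fin.castAdd s e) i j))))

/-- CON: the cone `T = 0` and the hypersurface `T = 1`. -/
def CONStmt : Prop := ∀ {k : Type} [Field k] (P : Pred k), Good P → P k →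
  ∀ (r a b : ℕ) (c : Fin r → Fin a → Fin b → k), P (Cone c) ↔ P (Cub c)

/-- The coefficients `S` generate the field `k` up to common factors. -/
def Gen (S : Set k) : Prop :=
  0 ∈ S ∧ 1 ∈ S ∧ (-1 : k) ∈ S ∧
    ∀ s : Finset k, ∃ u : k, u ≠ 0 ∧ ∀ x ∈ s, u * x ∈ AddSubmonoid.closure S

/-- The dehomogenisation (at `x_0 = 1`) of a bilinear form. -/
noncomputable def deh {t m b : ℕ} (c : Fin t → Fin (m + 1) → Fin b → k) (e : Fin t) :
    MvPolynomial (Fin m ⊕ Fin b) k :=
  ∑ j, (C (c e 0 j) + ∑ i : Fin m, C (c e i.succ j) * X (Sum.inl i)) * X (Sum.inr j)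

/-- The family `f_e z_0`. -/
noncomputable def mulX {m r : ℕ} (f : Fin r → MvPolynomial (Fin m) k) (e : Fin r) :
    Polynomial (MvPolynomial (Fin m) k) :=
  Polynomial.C (f e) * Polynomial.X

/-- REG: registers.  For `f : Fin r → k[x_1, ..., x_m]` the algebra `k[x, z_0] / (f_e z_0)` is the
dehomogenisation (at `x_0 = 1`) of a system of bilinear forms with coefficients in `S`. -/
def REGStmt : Prop := ∀ {k : Type} [Field k] (S : Set k), Gen S →
  ∀ (m r : ℕ) (f : Fin r → MvPolynomial (Fin m) k),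
  ∃ (t b : ℕ) (c : Fin t → Fin (m + 1) → Fin b → k), Coef S c ∧
  Nonempty (Quo (deh c) ≃ₐ[k] Quo (mulX f))

/-- DEH: dehomogenisation of a system of bilinear forms. -/
def DEHStmt : Prop := ∀ {k : Type} [Field k] (P : Pred k), Good P →
  ∀ (m t b : ℕ) (c : Fin t → Fin (m + 1) → Fin b → k),
  P (Sec c) → P (Sec fun (e : Fin t) (i : Fin m) (j : Fin b) => c e i.succ j) →
  P (Quo (deh c))

/-- CUT: from `k[x, z_0] / (f_e z_0)` to `k[x] / (f_e)`. -/
def CUTStmt : Prop := ∀ {k : Type} [Field k] (P : Pred k), Good P → P k →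
  ∀ (m r : ℕ) (f : Fin r → MvPolynomial (Fin m) k),
  P (Quo (mulX f)) → P (Quo f)

/-- ALG: the algebraic part of the theorem. -/
def ALGStmt : Prop := ∀ {k : Type} [Field k] (P : Pred k), Good P → P k → ∀ (S : Set k), Gen S →
  ∀ m : ℕ,
  ((ClassB P S (m + 1) ↔ ClassC P S (m + 1)) ∧ (ClassC P S (m + 1) ↔ ClassD P S (m + 1)) ∧
   (ClassD P S (m + 1) ↔ ClassZ P S (m + 1)) ∧
   (ClassB P S (m + 1) → ∀ (r : ℕ) (f : Fin r → MvPolynomial (Fin m) k), P (Quo f)))

end Pool.H9.WMC
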