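import Pool.Agent.H9.WMC.Alg

/-!
The hyperplane `x_0 = 0` and its complement in a cone over a linear section.
-/

namespace Pool.H9.WMC

open MvPolynomial

namespace DEH

variable {k : Type} [Field k]

section sec
variable {r a b : ℕ} (c : Fin r → Fin a → Fin b → k)

/-- The variables `x`. -/
noncomputable def sx (i : Fin a) : Sec c :=
  Ideal.Quotient.mk (Ideal.span (Set.range (bil c))) (X (Sum.inl i))

/-- The variables `z`. -/
noncomputable def sz (j : Fin b) : Sec c :=
  Ideal.Quotient.mk (Ideal.span (Set.range (bil c))) (X (Sum.inr j))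

theorem sec_rel (e : Fin r) : ∑ i, ∑ j, algebraMap k (Sec c) (c e i j) * sx c i * sz c j = 0 := by
  have h : Ideal.Quotient.mk (Ideal.span (Set.range (bil c))) (bil c e) = 0 :=
    Ideal.Quotient.eq_zero_iff_mem.2 (Ideal.subset_span ⟨e, rfl⟩)
  unfold bil at h
  simp only [map_sum, map_mul] at h
  exact h

theorem sec_lift {D : Type} [CommRing D] [Algebra k D] (u : Fin a → D) (v : Fin b → D)
    (h : ∀ e, ∑ i, ∑ j, algebraMap k D (c e i j) * u i * v j = 0) :
    ∃ φ : Sec c →ₐ[k] D, (∀ i, φ (sx c i) = u i) ∧ ∀ j, φ (sz c j) = v j := by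
  refine ⟨Ideal.Quotient.liftₐ _ (aeval (Sum.elim u v)) ?_, fun i => ?_, fun j => ?_⟩
  · intro p hp
    have hle : Ideal.span (Set.range (bil c)) ≤
        RingHom.ker (aeval (Sum.elim u v) : MvPolynomial (Fin a ⊕ Fin b) k →ₐ[k] D) := by
      rw [Ideal.span_le]
      rintro _ ⟨e, rfl⟩
      rw [SetLike.mem_coe, RingHom.mem_ker]
      unfold bil
      rw [map_sum, ← h e]
      refine Finset.sum_congr rfl fun i _ => ?_
      rw [map_sum]
      refine Finset.sum_congr rfl fun j _ => ?_
      rw [map_mul, map_mul, aeval_C, aeval_X, aeval_X]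
      rfl
    exact hle hp
  · show aeval (Sum.elim u v) (X (Sum.inl i)) = u i
    rw [aeval_X]
    rfl
  · show aeval (Sum.elim u v) (X (Sum.inr j)) = v j
    rw [aeval_X]
    rfl

theorem sec_ext {D : Type} [CommRing D] [Algebra k D] {φ ψ : Sec c →ₐ[k] D}
    (h1 : ∀ i, φ (sx c i) = ψ (sx c i)) (h2 : ∀ j, φ (sz c j) = ψ (sz c j)) : φ = ψ := by
  apply Ideal.Quotient.algHom_ext
  apply MvPolynomial.algHom_ext
  rintro (i | j)
  · exact h1 i
  · exact h2 j

end sec

section deh
variable {t m b : ℕ} (c : Fin t → Fin (m + 1) → Fin b → k)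

/-- The variables `x`. -/
noncomputable def dx (i : Fin m) : Quo (deh c) :=
  Ideal.Quotient.mk (Ideal.span (Set.range (deh c))) (X (Sum.inl i))

/-- The variables `z`. -/
noncomputable def dz (j : Fin b) : Quo (deh c) :=
  Ideal.Quotient.mk (Ideal.span (Set.range (deh c))) (X (Sum.inr j))

theorem deh_rel (e : Fin t) : ∑ j, (algebraMap k (Quo (deh c)) (c e 0 j) +
    ∑ i : Fin m, algebraMap k (Quo (deh c)) (c e i.succ j) * dx c i) * dz c j = 0 := by
  have h : Ideal.Quotient.mk (Ideal.span (Set.range (deh c))) (deh c e) = 0 :=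
    Ideal.Quotient.eq_zero_iff_mem.2 (Ideal.subset_span ⟨e, rfl⟩)
  unfold deh at h
  simp only [map_sum, map_mul, map_add] at h
  exact h

theorem deh_lift {D : Type} [CommRing D] [Algebra k D] (u : Fin m → D) (v : Fin b → D)
    (h : ∀ e, ∑ j, (algebraMap k D (c e 0 j) +
      ∑ i : Fin m, algebraMap k D (c e i.succ j) * u i) * v j = 0) :
    ∃ φ : Quo (deh c) →ₐ[k] D, (∀ i, φ (dx c i) = u i) ∧ ∀ j, φ (dz c j) = v j := by
  refine ⟨Ideal.Quotient.liftₐ _ (aeval (Sum.elim u v)) ?_, fun i => ?_, fun j => ?_⟩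
  · intro p hp
    have hle : Ideal.span (Set.range (deh c)) ≤
        RingHom.ker (aeval (Sum.elim u v) : MvPolynomial (Fin m ⊕ Fin b) k →ₐ[k] D) := by
      rw [Ideal.span_le]
      rintro _ ⟨e, rfl⟩
      rw [SetLike.mem_coe, RingHom.mem_ker]
      unfold deh
      rw [map_sum, ← h e]
      refine Finset.sum_congr rfl fun j _ => ?_
      rw [map_mul, map_add, map_sum, aeval_C, aeval_X]
      congr 2
      refine Finset.sum_congr rfl fun i _ => ?_
      rw [map_mul, aeval_C, aeval_X]
      rfl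
    exact hle hp
  · show aeval (Sum.elim u v) (X (Sum.inl i)) = u i
    rw [aeval_X]
    rfl
  · show aeval (Sum.elim u v) (X (Sum.inr j)) = v j
    rw [aeval_X]
    rfl

theorem deh_ext {D : Type} [CommRing D] [Algebra k D] {φ ψ : Quo (deh c) →ₐ[k] D}
    (h1 : ∀ i, φ (dx c i) = ψ (dx c i)) (h2 : ∀ j, φ (dz c j) = ψ (dz c j)) : φ = ψ := by
  apply Ideal.Quotient.algHom_ext
  apply MvPolynomial.algHom_ext
  rintro (i | j)
  · exact h1 i
  · exact h2 j

/-- The hyperplane `x_0 = 0`. -/
theorem iso_zero : Nonempty ((Sec c ⧸ Ideal.span {sx c 0}) ≃ₐ[k]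
    Sec fun (e : Fin t) (i : Fin m) (j : Fin b) => c e i.succ j) := by
  let c' : Fin t → Fin m → Fin b → k := fun e i j => c e i.succ j
  let π : Sec c →ₐ[k] (Sec c ⧸ Ideal.span {sx c 0}) := Ideal.Quotient.mkₐ k _
  have hπ : π (sx c 0) = 0 := Ideal.Quotient.eq_zero_iff_mem.2 (Ideal.subset_span rfl)
  obtain ⟨F1, hF1, hF2⟩ := sec_lift c (Fin.cons 0 (sx c') : Fin (m + 1) → Sec c') (sz c') (by
    intro e
    rw [Fin.sum_univ_succ]
    simp only [Fin.cons_zero, Fin.cons_succ, mul_zero, zero_mul, Finset.sum_const_zero, zero_add]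
    exact sec_rel c' e)
  let F : (Sec c ⧸ Ideal.span {sx c 0}) →ₐ[k] Sec c' := Ideal.Quotient.liftₐ _ F1 (by
    intro p hp
    obtain ⟨q, rfl⟩ := Ideal.mem_span_singleton'.1 hp
    rw [map_mul, hF1, Fin.cons_zero, mul_zero])
  have hF : ∀ p, F (π p) = F1 p := fun p => rfl
  obtain ⟨G, hG1, hG2⟩ := sec_lift c' (fun i => π (sx c i.succ)) (fun j => π (sz c j)) (by
    intro e
    have h := congrArg π (sec_rel c e)
    rw [Fin.sum_univ_succ, map_zero, map_add] at h
    simp only [map_sum, map_mul, hπ, mul_zero, zero_mul, Finset.sum_const_zero, zero_add,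
      AlgHom.commutes] at h
    exact h)
  have h1 : F.comp G = AlgHom.id k _ := by
    apply sec_ext
    · intro i
      show F (G (sx c' i)) = sx c' i
      rw [hG1, hF, hF1, Fin.cons_succ]
    · intro j
      show F (G (sz c' j)) = sz c' j
      rw [hG2, hF, hF2]
  have h2 : G.comp F = AlgHom.id k _ := by
    apply Ideal.Quotient.algHom_ext
    apply sec_ext
    · intro i
      show G (F (π (sx c i))) = π (sx c i)
      rw [hF, hF1]
      refine Fin.cases ?_ (fun i => ?_) i
      · rw [Fin.cons_zero, map_zero, hπ]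
      · rw [Fin.cons_succ, hG1]
    · intro j
      show G (F (π (sz c j))) = π (sz c j)
      rw [hF, hF2, hG2]
  exact ⟨AlgEquiv.ofAlgHom F G h1 h2⟩

/-- The complement of the hyperplane `x_0 = 0`. -/
theorem iso_away : Nonempty (Localization.Away (sx c 0) ≃ₐ[k]
    Localization.Away (Polynomial.X : Polynomial (Quo (deh c)))) := by
  let x : Sec c := sx c 0
  let L := Localization.Away x
  let T := Polynomial (Quo (deh c))
  let τ : T := Polynomial.X
  let L' := Localization.Away τ
  let i : L := IsLocalization.Away.invSelf x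
  have hi : algebraMap (Sec c) L x * i = 1 := IsLocalization.Away.mul_invSelf x
  let ι : Sec c →ₐ[k] L := IsScalarTower.toAlgHom k (Sec c) L
  have hι : ι x * i = 1 := hi
  let κ : Quo (deh c) →ₐ[k] L' := (IsScalarTower.toAlgHom k T L').comp
    ((Algebra.ofId (Quo (deh c)) T).restrictScalars k)
  let s : L' := algebraMap T L' τ
  have hs : IsUnit s := IsLocalization.Away.algebraMap_isUnit τ
  obtain ⟨F1, hF1, hF2⟩ := sec_lift c
    (Fin.cons s (fun i => s * κ (dx c i)) : Fin (m + 1) → L') (fun j => κ (dz c j)) (by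
    intro e
    have h := congrArg κ (deh_rel c e)
    rw [map_zero, map_sum] at h
    simp only [map_mul, map_add, map_sum, AlgHom.commutes] at h
    rw [← mul_zero s, ← h, Finset.mul_sum, Fin.sum_univ_succ]
    simp only [Fin.cons_zero, Fin.cons_succ]
    rw [Finset.sum_comm, ← Finset.sum_add_distrib]
    refine Finset.sum_congr rfl fun j _ => ?_
    rw [add_mul, mul_add, Finset.sum_mul, Finset.mul_sum]
    congr 1
    · ring
    · refine Finset.sum_congr rfl fun l _ => ?_
      ring)
  obtain ⟨G0, hG1, hG2⟩ := deh_lift c (fun l => i * ι (sx c l.succ)) (fun j => ι (sz c j)) (by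
    intro e
    have h := congrArg ι (sec_rel c e)
    rw [map_zero] at h
    simp only [map_mul, map_sum, AlgHom.commutes] at h
    rw [Fin.sum_univ_succ, Finset.sum_comm, ← Finset.sum_add_distrib] at h
    rw [← mul_zero i, ← h, Finset.mul_sum]
    refine Finset.sum_congr rfl fun j _ => ?_
    rw [add_mul, mul_add, Finset.sum_mul, Finset.mul_sum]
    congr 1
    · have h2 : i * (algebraMap k L (c e 0 j) * ι (sx c 0) * ι (sz c j)) =
          (ι x * i) * (algebraMap k L (c e 0 j) * ι (sz c j)) := by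
        show i * (algebraMap k L (c e 0 j) * ι x * ι (sz c j)) = _
        ring
      rw [h2, hι, one_mul]
    · refine Finset.sum_congr rfl fun l _ => ?_
      ring)
  let G1 : T →ₐ[k] L :=
    { Polynomial.eval₂RingHom (G0 : Quo (deh c) →+* L) (ι x) with
      commutes' := fun a => by
        show Polynomial.eval₂ (G0 : Quo (deh c) →+* L) (ι x)
          (Polynomial.C (algebraMap k (Quo (deh c)) a)) = algebraMap k L a
        rw [Polynomial.eval₂_C]
        exact G0.commutes a }
  have hG1X : G1 τ = ι x := by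
    show Polynomial.eval₂ (G0 : Quo (deh c) →+* L) (ι x) Polynomial.X = ι x
    rw [Polynomial.eval₂_X]
  have hG1C : ∀ p, G1 (Polynomial.C p) = G0 p := by
    intro p
    show Polynomial.eval₂ (G0 : Quo (deh c) →+* L) (ι x) (Polynomial.C p) = G0 p
    rw [Polynomial.eval₂_C]
    rfl
  let F : L →ₐ[k] L' := IsLocalization.liftAlgHom (M := Submonoid.powers x) (f := F1) (by
    rintro ⟨_, n, rfl⟩
    simp only [map_pow]
    apply IsUnit.pow
    show IsUnit (F1 (sx c 0))
    rw [hF1, Fin.cons_zero]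
    exact hs)
  have hF : ∀ e : Sec c, F (ι e) = F1 e := fun e => IsLocalization.lift_eq _ _
  let G : L' →ₐ[k] L := IsLocalization.liftAlgHom (M := Submonoid.powers τ) (f := G1) (by
    rintro ⟨_, n, rfl⟩
    simp only [map_pow]
    apply IsUnit.pow
    rw [hG1X]
    exact IsUnit.of_mul_eq_one _ hι)
  have hG : ∀ e : T, G (algebraMap T L' e) = G1 e := fun e => IsLocalization.lift_eq _ _
  have hGκ : ∀ p, G (κ p) = G0 p := fun p => by
    show G (algebraMap T L' (Polynomial.C p)) = _
    rw [hG, hG1C]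
  have hGs : G s = ι x := by
    show G (algebraMap T L' τ) = _
    rw [hG, hG1X]
  have h1 : G.comp F1 = ι := by
    apply sec_ext
    · intro l
      show G (F1 (sx c l)) = ι (sx c l)
      rw [hF1]
      refine Fin.cases ?_ (fun l => ?_) l
      · rw [Fin.cons_zero, hGs]
      · rw [Fin.cons_succ, map_mul, hGs, hGκ, hG1, ← mul_assoc, hι, one_mul]
    · intro j
      show G (F1 (sz c j)) = ι (sz c j)
      rw [hF2, hGκ, hG2]
  have h2 : F.comp G0 = κ := by
    have hFi : s * F i = 1 := by
      have h3 : F (ι x) = s := by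
        rw [hF]
        show F1 (sx c 0) = s
        rw [hF1, Fin.cons_zero]
      rw [← h3, ← map_mul, hι, map_one]
    apply deh_ext
    · intro l
      show F (G0 (dx c l)) = κ (dx c l)
      rw [hG1, map_mul, hF, hF1, Fin.cons_succ]
      have h4 : F i * (s * κ (dx c l)) = (s * F i) * κ (dx c l) := by ring
      rw [h4, hFi, one_mul]
    · intro j
      show F (G0 (dz c j)) = κ (dz c j)
      rw [hG2, hF, hF2]
  have h3 : F.comp G = AlgHom.id k L' := by
    apply AlgHom.coe_ringHom_injective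
    apply IsLocalization.ringHom_ext (Submonoid.powers τ)
    apply Polynomial.ringHom_ext
    · intro p
      show F (G (κ p)) = κ p
      rw [hGκ]
      exact congrArg (fun f : Quo (deh c) →ₐ[k] L' => f p) h2
    · show F (G s) = s
      rw [hGs, hF]
      show F1 (sx c 0) = s
      rw [hF1, Fin.cons_zero]
  have h4 : G.comp F = AlgHom.id k L := by
    apply AlgHom.coe_ringHom_injective
    apply IsLocalization.ringHom_ext (Submonoid.powers x)
    apply RingHom.ext
    intro e
    show G (F (ι e)) = ι e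
    rw [hF]
    exact congrArg (fun f : Sec c →ₐ[k] L => f e) h1
  exact ⟨AlgEquiv.ofAlgHom F G h3 h4⟩

end deh

end DEH

/-- DEH -/
theorem deh_thm' : DEHStmt := by
  intro k _ P hP m t b c h1 h2
  obtain ⟨e1⟩ := DEH.iso_zero c
  obtain ⟨e2⟩ := DEH.iso_away c
  exact hP.gm _ (hP.iso _ _ e2 (hP.opn _ _ h1 (hP.iso _ _ e1.symm h2)))

end Pool.H9.WMC
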