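import Pool.Agent.H9.WMC.Alg

/-!
The hypersurface `T (y, x, z) = 1` as a bundle over `(x, z)`, and a permutation of its variables.
-/

namespace Pool.H9.WMC

open MvPolynomial

namespace FLA

variable {k : Type} [Field k] {r a b : ℕ} (c : Fin r → Fin a → Fin b → k)

theorem sum_tri : sumAlgEquiv k (Fin r) (Fin a ⊕ Fin b) (tri c - 1) = rel (bil c) := by
  unfold tri rel bil
  rw [map_sub, map_one, map_sum]
  congr 1
  refine Finset.sum_congr rfl fun e _ => ?_
  rw [map_sum, map_sum, Finset.sum_mul]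
  refine Finset.sum_congr rfl fun i _ => ?_
  rw [map_sum, map_sum, Finset.sum_mul]
  refine Finset.sum_congr rfl fun j _ => ?_
  simp only [map_mul, sumAlgEquiv_C_inl, sumAlgEquiv_X_inl, sumAlgEquiv_X_inr]
  ring

/-- Exchange of the first two groups of variables. -/
def swap (r a b : ℕ) : (Fin r ⊕ Fin a ⊕ Fin b) ≃ (Fin a ⊕ Fin r ⊕ Fin b) :=
  ((Equiv.sumAssoc (Fin r) (Fin a) (Fin b)).symm.trans
    (Equiv.sumCongr (Equiv.sumComm (Fin r) (Fin a)) (Equiv.refl (Fin b)))).trans
    (Equiv.sumAssoc (Fin a) (Fin r) (Fin b))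

theorem swap_tri : renameEquiv k (swap r a b) (tri c - 1) =
    tri (fun (i : Fin a) (e : Fin r) (j : Fin b) => c e i j) - 1 := by
  unfold tri
  rw [map_sub, map_one]
  congr 1
  simp only [map_sum]
  rw [Finset.sum_comm]
  refine Finset.sum_congr rfl fun i _ => Finset.sum_congr rfl fun e _ =>
    Finset.sum_congr rfl fun j _ => ?_
  simp only [map_mul, renameEquiv_apply, rename_C, rename_X]
  have h1 : swap r a b (Sum.inl e) = Sum.inr (Sum.inl e) := rfl
  have h2 : swap r a b (Sum.inr (Sum.inl i)) = Sum.inl i := rfl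
  have h3 : swap r a b (Sum.inr (Sum.inr j)) = Sum.inr (Sum.inr j) := rfl
  rw [h1, h2, h3]
  ring

theorem main : Nonempty (Cub c ≃ₐ[k] E (bil c)) ∧
    Nonempty (Cub c ≃ₐ[k] Cub (fun (i : Fin a) (e : Fin r) (j : Fin b) => c e i j)) := by
  constructor
  · refine ⟨Ideal.quotientEquivAlg (R₁ := k) _ _ (sumAlgEquiv k (Fin r) (Fin a ⊕ Fin b)) ?_⟩
    rw [Ideal.map_span, Set.image_singleton]
    exact congrArg (fun p => Ideal.span {p}) (sum_tri c).symm
  · refine ⟨Ideal.quotientEquivAlg (R₁ := k) _ _ (renameEquiv k (swap r a b)) ?_⟩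
    rw [Ideal.map_span, Set.image_singleton]
    exact congrArg (fun p => Ideal.span {p}) (swap_tri c).symm

end FLA

theorem fla_thm' : FLAStmt := by
  intro k _ r a b c
  exact FLA.main c

end Pool.H9.WMC
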