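import Pool.Agent.H9.WMC.Her
import Pool.Agent.H9.WMC.DehIso

/-!
From the affine varieties in `m` variables to the linear sections with `m + 1` variables `x`.
-/

namespace Pool.H9.WMC

open MvPolynomial

namespace HOM

variable {k : Type} [Field k]

/-- The matrix of a dehomogenised system. -/
noncomputable def mat {t m b : ℕ} (c : Fin t → Fin (m + 1) → Fin b → k) (e : Fin t) (j : Fin b) :
    MvPolynomial (Fin m) k :=
  C (c e 0 j) + ∑ i : Fin m, C (c e i.succ j) * X i

/-- Separation of the variables. -/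
noncomputable def sep (m b : ℕ) :
    MvPolynomial (Fin m ⊕ Fin b) k ≃ₐ[k] MvPolynomial (Fin b) (MvPolynomial (Fin m) k) :=
  (renameEquiv k (Equiv.sumComm (Fin m) (Fin b))).trans (sumAlgEquiv k (Fin b) (Fin m))

theorem sep_inl {m b : ℕ} (i : Fin m) : sep (k := k) m b (X (Sum.inl i)) = C (X i) := by
  unfold sep
  rw [AlgEquiv.trans_apply, renameEquiv_apply, rename_X]
  simp

theorem sep_inr {m b : ℕ} (j : Fin b) : sep (k := k) m b (X (Sum.inr j)) = X j := by
  unfold sep
  rw [AlgEquiv.trans_apply, renameEquiv_apply, rename_X]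
  simp

theorem sep_C {m b : ℕ} (x : k) : sep (k := k) m b (C x) = C (C x) := by
  unfold sep
  rw [AlgEquiv.trans_apply, renameEquiv_apply, rename_C]
  simp

theorem sep_deh {t m b : ℕ} (c : Fin t → Fin (m + 1) → Fin b → k) (e : Fin t) :
    sep m b (deh c e) = HER.lin (mat c) e := by
  unfold deh HER.lin mat
  rw [map_sum]
  refine Finset.sum_congr rfl fun j _ => ?_
  have h : ∀ i : Fin m, sep m b (C (c e i.succ j) * X (Sum.inl i)) =
      C (C (c e i.succ j) * X i) := fun i => by rw [map_mul, sep_C, sep_inl, C_mul]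
  rw [map_mul, sep_inr, map_add, sep_C, map_sum, Finset.sum_congr rfl fun i _ => h i, C_add,
    ← map_sum]

theorem quo_deh {P : Pred k} (hP : Good P) {t m b : ℕ}
    (h : ∀ I : Ideal (MvPolynomial (Fin m) k), P (MvPolynomial (Fin m) k ⧸ I))
    (c : Fin t → Fin (m + 1) → Fin b → k) : P (Quo (deh c)) := by
  have h1 : HER.J (⊥ : Ideal (MvPolynomial (Fin m) k)) (mat c) =
      (Ideal.span (Set.range (deh c))).map
        ((sep m b : MvPolynomial (Fin m ⊕ Fin b) k ≃ₐ[k] _) :
          MvPolynomial (Fin m ⊕ Fin b) k →+* MvPolynomial (Fin b) (MvPolynomial (Fin m) k)) := by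
    unfold HER.J
    rw [Ideal.map_bot, bot_sup_eq, Ideal.map_span, ← Set.range_comp]
    congr 2
    funext e
    exact (sep_deh c e).symm
  exact hP.iso _ _ (Ideal.quotientEquivAlg (R₁ := k) _ _ (sep m b) h1).symm
    (HER.main hP h b t (mat c) ⊥)

theorem ft_sec {r a b : ℕ} (c : Fin r → Fin a → Fin b → k) : Algebra.FiniteType k (Sec c) :=
  Algebra.FiniteType.of_surjective (Ideal.Quotient.mkₐ k _) Ideal.Quotient.mk_surjective

/-- A further free variable. -/
theorem down {P : Pred k} (hP : Good P) {m : ℕ}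
    (h : ∀ I : Ideal (MvPolynomial (Fin (m + 1)) k), P (MvPolynomial (Fin (m + 1)) k ⧸ I))
    (I : Ideal (MvPolynomial (Fin m) k)) : P (MvPolynomial (Fin m) k ⧸ I) := by
  let e : MvPolynomial (Fin (m + 1)) k ≃ₐ[k] Polynomial (MvPolynomial (Fin m) k) :=
    finSuccEquiv k m
  let K : Ideal (Polynomial (MvPolynomial (Fin m) k)) := I.map Polynomial.C
  have h3 : K = (K.comap (e : MvPolynomial (Fin (m + 1)) k →+* _)).map
      (e : MvPolynomial (Fin (m + 1)) k →+* Polynomial (MvPolynomial (Fin m) k)) :=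
    (Ideal.map_comap_of_surjective _ e.surjective K).symm
  have e1 := Ideal.quotientEquivAlg (R₁ := k) _ _ e h3
  have e2 : Polynomial (MvPolynomial (Fin m) k ⧸ I) ≃ₐ[k]
      (Polynomial (MvPolynomial (Fin m) k) ⧸ K) :=
    AlgEquiv.ofRingEquiv (f := Ideal.polynomialQuotientEquivQuotientPolynomial I) (by
      intro x
      have h4 : algebraMap k (Polynomial (MvPolynomial (Fin m) k ⧸ I)) x =
          (Polynomial.C (MvPolynomial.C x : MvPolynomial (Fin m) k)).map
            (Ideal.Quotient.mk I) := by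
        rw [Polynomial.map_C]
        rfl
      rw [h4, Ideal.polynomialQuotientEquivQuotientPolynomial_map_mk]
      rfl)
  exact hP.unline _ (hP.iso _ _ (e1.trans e2.symm) (h _))

theorem down' {P : Pred k} (hP : Good P) {m n : ℕ} (hnm : n ≤ m)
    (h : ∀ I : Ideal (MvPolynomial (Fin m) k), P (MvPolynomial (Fin m) k ⧸ I)) :
    ∀ I : Ideal (MvPolynomial (Fin n) k), P (MvPolynomial (Fin n) k ⧸ I) := by
  induction m, hnm using Nat.le_induction with
  | base => exact h
  | succ m hm ih => exact ih (down hP h)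

/-- All linear sections with at most `m + 1` variables `x`. -/
theorem sec {P : Pred k} (hP : Good P) (hk : P k) {m : ℕ}
    (h : ∀ I : Ideal (MvPolynomial (Fin m) k), P (MvPolynomial (Fin m) k ⧸ I)) (n : ℕ)
    (hn : n ≤ m + 1) : ∀ (r b : ℕ) (c : Fin r → Fin n → Fin b → k), P (Sec c) := by
  have hlin := Pool.WMC.lin_thm P hP
  induction n with
  | zero =>
    intro r b c
    have h1 : Ideal.span (Set.range (bil c)) = ⊥ := by
      rw [Ideal.span_eq_bot]
      rintro _ ⟨e, rfl⟩
      unfold bil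
      rw [Finset.univ_eq_empty, Finset.sum_empty]
    exact hP.iso _ _ ((Ideal.quotientEquivAlgOfEq k h1).trans
      (AlgEquiv.quotientBot k (MvPolynomial (Fin 0 ⊕ Fin b) k))).symm (hlin.mv k _ hk)
  | succ n ih =>
    intro r b c
    obtain ⟨e1⟩ := DEH.iso_zero c
    obtain ⟨e2⟩ := DEH.iso_away c
    refine hP.total (Sec c) (DEH.sx c 0) (ft_sec c) (hP.iso _ _ e1.symm (ih (by omega) r b _))
      (hP.iso _ _ e2.symm (hlin.gm' _ (quo_deh hP (down' hP (by omega) h) c)))

/-- The converse of `CUT` and `REG`. -/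
theorem classB {P : Pred k} (hP : Good P) (hk : P k) {m : ℕ}
    (h : ∀ (r : ℕ) (f : Fin r → MvPolynomial (Fin m) k), P (Quo f)) (S : Set k) :
    ClassB P S (m + 1) := by
  intro r b c _
  refine sec hP hk (fun I => ?_) (m + 1) le_rfl r b c
  obtain ⟨s, hs⟩ := (inferInstance : IsNoetherianRing (MvPolynomial (Fin m) k)).noetherian I
  have h1 : Ideal.span (Set.range fun i : Fin s.card => (s.equivFin.symm i : MvPolynomial _ k)) =
      I := by
    rw [← hs]
    congr 1
    ext x
    constructor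
    · rintro ⟨i, rfl⟩
      exact (s.equivFin.symm i).2
    · intro hx
      exact ⟨s.equivFin ⟨x, hx⟩, by simp⟩
  exact hP.iso _ _ (Ideal.quotientEquivAlgOfEq k h1) (h _ _)

end HOM

end Pool.H9.WMC
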