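import Pool.Agent.H9.WMC.Geo2
import Pool.Agent.H9.WMC.Hom
import Pool.Agent.H9.WMC.Fla

/-!
Weight-monodromy and linear sections of Segre varieties: the assembly (MP_d037d4_ag).
-/

namespace Pool.H9.WMC

open Module Pool.H73.WM

/-- Smooth projective schemes over finite extensions of `ℚ_p` and their Hyodo-Kato cohomology, and
the relation with the varieties over `ℚ` (considered over `ℚ_p`).  All the fields are known facts.

* `Sp`: the pairs `(K, Y)`, `K` a finite extension of `ℚ_p` and `Y` a nonempty smooth projective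
  scheme over `K`; the residue field of `K` has `p ^ deg` elements;
* `H y i`: the cohomology `H^i_HK(Y)`, with the linear Frobenius and the monodromy operator of `K`;
* `descend`: `Y` is, up to a finite extension of `K`, a direct summand for `H_HK` of the base change
  of a smooth projective scheme over `ℚ` of the same dimension (alterations, approximation of
  semistable models, restriction of scalars of a number field);
* `base`: base change from `ℚ` to `ℚ_p`. -/
structure Padic {p : ℕ} {Ω : Type} [Field Ω] [CharZero Ω] {G : Geometry ℚ}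
    (C : Cohomology G p Ω) where
  /-- Pairs of a finite extension `K` of `ℚ_p` and a smooth projective scheme over `K`. -/
  Sp : Type 1
  /-- The dimension. -/
  dim : Sp → ℕ
  /-- The residue degree of `K`. -/
  deg : Sp → ℕ
  deg_pos : ∀ y, 0 < deg y
  /-- Hyodo-Kato cohomology. -/
  H : (y : Sp) → ℤ → FN (p ^ deg y) Ω
  descend : ∀ y, ∃ Y : G.Var, G.SmProj Y ∧ G.size Y = dim y + 1 ∧
    ∀ i, (H y i).Summand (C.gr Y i i)
  base : ∀ Y : G.Var, G.SmProj Y → G.size Y ≠ 0 →
    ∃ y : Sp, G.size Y = dim y + 1 ∧ ∀ i, (C.gr Y i i).Summand (H y i)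

/-- The coefficients `0, 1, -1`. -/
def signs : Set ℚ := {0, 1, -1}

theorem gen_signs : Gen signs := by
  refine ⟨by simp [signs], by simp [signs], by simp [signs], fun s => ?_⟩
  have hint : ∀ n : ℤ, (n : ℚ) ∈ AddSubmonoid.closure signs := by
    intro n
    have h1 : (1 : ℚ) ∈ AddSubmonoid.closure signs :=
      AddSubmonoid.subset_closure (by simp [signs])
    have h2 : (-1 : ℚ) ∈ AddSubmonoid.closure signs :=
      AddSubmonoid.subset_closure (by simp [signs])
    obtain ⟨m, rfl | rfl⟩ := n.eq_nat_or_neg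
    · have := nsmul_mem h1 m
      simpa using this
    · have := nsmul_mem h2 m
      simpa using this
  refine ⟨((∏ x ∈ s, x.den : ℕ) : ℚ), ?_, fun x hx => ?_⟩
  · rw [Nat.cast_ne_zero]
    exact Finset.prod_ne_zero_iff.2 fun x _ => x.den_nz
  · obtain ⟨c, hc⟩ := Finset.dvd_prod_of_mem (fun x : ℚ => x.den) hx
    have : ((∏ x ∈ s, x.den : ℕ) : ℚ) * x = ((c * x.num : ℤ) : ℚ) := by
      rw [hc]
      push_cast
      have h3 : (x.den : ℚ) * x = x.num := by
        rw [mul_comm]
        exact Rat.mul_den_eq_num x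
      calc (x.den : ℚ) * c * x = c * ((x.den : ℚ) * x) := by ring
        _ = c * x.num := by rw [h3]
    rw [this]
    exact hint _

section
variable {Ω : Type} [Field Ω] [CharZero Ω] [IsAlgClosed Ω]

theorem wmp_one (hW : WMPStmt) (hS : SUMStmt) {q q' : ℕ} (hq : 1 < q) (hq' : 1 < q')
    {M : FN q Ω} {M' : FN q' Ω} (h : M.Summand M') {w : ℤ} (h' : M'.WM w) : M.WM w :=
  (hW hq M w).2 (hS hq hq' M M' h w ((hW hq' M' w).1 h'))

/-- The theorem over a fixed field. -/
theorem tfae_field (hGo : GOOStmt) (hG : GEOStmt) (hA : ALGStmt) {k : Type} [Field k]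
    (G : Geometry k) {q : ℕ} (hq : 1 < q) (C : Cohomology G q Ω) (S : Set k) (hS : Gen S) (d : ℕ) :
    List.TFAE [∀ Y, G.SmProj Y → G.size Y ≤ d + 1 → ∀ i : ℤ, (C.gr Y i i).WM i,
      ∀ X, G.size X ≤ d + 1 → C.WM X,
      ClassB C.WMA S (d + 2), ClassC C.WMA S (d + 2), ClassD C.WMA S (d + 2),
      ClassZ C.WMA S (d + 2)] := by
  obtain ⟨-, -, -, -, hk, hgood⟩ := hGo G hq C
  obtain ⟨h1, h2, h3, h4⟩ := hA C.WMA hgood hk S hS (d + 1)
  tfae_have 1 → 2 := wm_of_smooth hGo hq C (d + 1)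
  tfae_have 2 → 1 := fun h Y _ hY i => h Y hY i i
  tfae_have 2 → 3 := fun h => HOM.classB hgood hk (wm_affine hGo hq C (d + 1) h) S
  tfae_have 3 → 2 := fun h X hX => (hG G hq C).2 (d + 1) (h4 h) X hX
  tfae_have 3 ↔ 4 := h1
  tfae_have 4 ↔ 5 := h2
  tfae_have 5 ↔ 6 := h3
  tfae_finish

/-- The theorem over the finite extensions of `ℚ_p`. -/
theorem tfae_padic (hW : WMPStmt) (hSu : SUMStmt) (hGo : GOOStmt) (hG : GEOStmt) (hA : ALGStmt)
    {G : Geometry ℚ} {p : ℕ} (hp : 1 < p) {C : Cohomology G p Ω} (T : Padic C) (d : ℕ) :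
    List.TFAE [∀ y, T.dim y ≤ d → ∀ i, (T.H y i).WM i,
      ∀ X, G.size X ≤ d + 1 → C.WM X,
      ClassB C.WMA signs (d + 2), ClassC C.WMA signs (d + 2), ClassD C.WMA signs (d + 2),
      ClassZ C.WMA signs (d + 2)] := by
  have h := tfae_field hGo hG hA G hp C signs gen_signs d
  tfae_have 2 ↔ 3 := h.out 1 2
  tfae_have 3 ↔ 4 := h.out 2 3
  tfae_have 4 ↔ 5 := h.out 3 4
  tfae_have 5 ↔ 6 := h.out 4 5
  tfae_have 1 → 2 := by
    intro h1
    refine (h.out 0 1).1 fun Y hY hYd i => ?_
    by_cases h0 : G.size Y = 0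
    · exact wm_subsingleton _ (C.empty Y i i h0) i
    · obtain ⟨y, hy, hy'⟩ := T.base Y hY h0
      exact wmp_one hW hSu hp (Nat.one_lt_pow (T.deg_pos y).ne' hp) (hy' i)
        (h1 y (by omega) i)
  tfae_have 2 → 1 := by
    intro h2 y hy i
    obtain ⟨Y, -, hs, hj⟩ := T.descend y
    exact wmp_one hW hSu (Nat.one_lt_pow (T.deg_pos y).ne' hp) hp (hj i)
      (h2 Y (by omega) i i)
  tfae_finish
end

end Pool.H9.WMC
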