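import Pool.Agent.H9.WMC.Thy
import Pool.Agent.H46.WMC.LIN

/-!
Smooth projective varieties and all varieties of bounded dimension; affine varieties in `m`
variables.
-/

namespace Pool.H9.WMC

open Module MvPolynomial Pool.H73.WM

theorem wm_subsingleton {q : ℕ} {Ω : Type} [Field Ω] [CharZero Ω] (M : FN q Ω)
    (h : Subsingleton M.V) (w : ℤ) : M.WM w := by
  refine ⟨fun _ => ⊤, ⟨fun _ _ _ => le_rfl, ⟨0, Subsingleton.elim _ _⟩, ⟨0, rfl⟩, ?_, ?_, ?_⟩,
    ?_, ?_⟩
  · intro _ _ _
    exact Submodule.mem_top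
  · intro _ _ _ _
    exact Submodule.mem_top
  · intro _ _ _
    exact ⟨0, Submodule.mem_top, Submodule.mem_top⟩
  · intro _ _ _
    exact Submodule.mem_top
  · intro _ _ _ hx
    exact absurd Submodule.mem_top hx

section
variable {k : Type} [Field k] {G : Geometry k} {q : ℕ} {Ω : Type} [Field Ω] [CharZero Ω]
  [IsAlgClosed Ω]

/-- Smooth projective varieties of bounded dimension suffice. -/
theorem wm_of_smooth (h1 : GOOStmt) (hq : 1 < q) (C : Cohomology G q Ω) (m : ℕ)
    (hY : ∀ Y, G.SmProj Y → G.size Y ≤ m → ∀ i : ℤ, (C.gr Y i i).WM i) :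
    ∀ X, G.size X ≤ m → C.WM X := by
  obtain ⟨hX, -, hU, h0, -, -⟩ := h1 G hq C
  have key : ∀ n : ℕ, ∀ X : G.Var, G.size X = n → n ≤ m → C.WM X := by
    intro n
    induction n using Nat.strong_induction_on with
    | h n ih =>
      intro X hn hnm
      by_cases hz : G.size X = 0
      · exact h0 X hz
      · obtain ⟨Z, U, Y, D, hZs, hDs, hc1, hc2, hsm⟩ := G.resolution X hz
        have e1 : C.WM Z := ih _ (hn ▸ hZs) Z rfl (by omega)
        have e2 : C.WM D := ih _ (hn ▸ hDs) D rfl (by omega)
        have s1 := G.size_cut X Z U hc1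
        have s2 := G.size_cut Y D U hc2
        have s3 : G.size Y ≤ m := by
          rcases le_total (G.size Z) (G.size U) with h | h
          · rw [max_eq_right h] at s1
            rw [s2]
            exact max_le (by omega) (by omega)
          · rw [max_eq_left h] at s1
            omega
        have e3 : C.WM Y := by
          intro w i
          by_cases hwi : w = i
          · rw [hwi]
            exact hY Y hsm s3 i
          · exact wm_subsingleton _ (C.pure Y w i hsm hwi) w
        exact hX X Z U hc1 e1 (hU Y D U hc2 e3 e2)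
  exact fun X hX => key _ X rfl hX

/-- All varieties of dimension smaller than `m` suffice for the affine varieties in `m`
variables. -/
theorem wm_affine (h1 : GOOStmt) (hq : 1 < q) (C : Cohomology G q Ω) (m : ℕ)
    (hX : ∀ X, G.size X ≤ m → C.WM X) (r : ℕ) (f : Fin r → MvPolynomial (Fin m) k) :
    C.WMA (Quo f) := by
  obtain ⟨-, -, -, -, hk, hG⟩ := h1 G hq C
  by_cases hf : ∃ e, f e ≠ 0
  · exact ⟨inferInstance, hX _ (G.size_closed m r f hf)⟩
  · have h2 : Ideal.span (Set.range f) = ⊥ := by
      rw [Ideal.span_eq_bot]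
      rintro _ ⟨e, rfl⟩
      by_contra h
      exact hf ⟨e, h⟩
    exact hG.iso _ _ ((Ideal.quotientEquivAlgOfEq k h2).trans
      (AlgEquiv.quotientBot k (MvPolynomial (Fin m) k))).symm
      ((Pool.WMC.lin_thm C.WMA hG).mv k _ hk)

end

end Pool.H9.WMC
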