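import Pool.Agent.H9.WMC.Alg
import Pool.Agent.H46.WMC.LIN

/-!
Systems of linear equations over a ring all of whose quotients satisfy the predicate.
-/

namespace Pool.H9.WMC

open MvPolynomial

namespace HER

section
variable {R : Type} [CommRing R]

/-- The linear form `∑ M e j z_j`. -/
noncomputable def lin {r b : ℕ} (M : Fin r → Fin b → R) (e : Fin r) : MvPolynomial (Fin b) R :=
  ∑ j, C (M e j) * X j

/-- The ideal generated by `I` and by the linear forms. -/
noncomputable def J (I : Ideal R) {r b : ℕ} (M : Fin r → Fin b → R) :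
    Ideal (MvPolynomial (Fin b) R) :=
  I.map C ⊔ Ideal.span (Set.range (lin M))

/-- The quotient. -/
abbrev A (I : Ideal R) {r b : ℕ} (M : Fin r → Fin b → R) : Type :=
  MvPolynomial (Fin b) R ⧸ J I M

/-- The variables. -/
noncomputable def z (I : Ideal R) {r b : ℕ} (M : Fin r → Fin b → R) (j : Fin b) : A I M :=
  Ideal.Quotient.mk (J I M) (X j)

theorem map_I (I : Ideal R) {r b : ℕ} (M : Fin r → Fin b → R) {x : R} (hx : x ∈ I) :
    algebraMap R (A I M) x = 0 :=
  Ideal.Quotient.eq_zero_iff_mem.2
    ((le_sup_left : I.map C ≤ J I M) (Ideal.mem_map_of_mem C hx))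

theorem rel_z (I : Ideal R) {r b : ℕ} (M : Fin r → Fin b → R) (e : Fin r) :
    ∑ j, algebraMap R (A I M) (M e j) * z I M j = 0 := by
  have h : Ideal.Quotient.mk (J I M) (lin M e) = 0 :=
    Ideal.Quotient.eq_zero_iff_mem.2
      ((le_sup_right : Ideal.span (Set.range (lin M)) ≤ J I M) (Ideal.subset_span ⟨e, rfl⟩))
  unfold lin at h
  rw [map_sum] at h
  exact h

theorem exists_lift (I : Ideal R) {r b : ℕ} (M : Fin r → Fin b → R) {D : Type} [CommRing D]
    [Algebra R D] (w : Fin b → D) (h1 : ∀ x ∈ I, algebraMap R D x = 0)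
    (h2 : ∀ e, ∑ j, algebraMap R D (M e j) * w j = 0) :
    ∃ φ : A I M →ₐ[R] D, ∀ j, φ (z I M j) = w j := by
  refine ⟨Ideal.Quotient.liftₐ _ (aeval w) ?_, fun j => ?_⟩
  · intro a ha
    have hle : J I M ≤ RingHom.ker (aeval w : MvPolynomial (Fin b) R →ₐ[R] D) := by
      refine sup_le ?_ ?_
      · rw [Ideal.map_le_iff_le_comap]
        intro x hx
        rw [Ideal.mem_comap, RingHom.mem_ker, aeval_C]
        exact h1 x hx
      · rw [Ideal.span_le]
        rintro _ ⟨e, rfl⟩
        rw [SetLike.mem_coe, RingHom.mem_ker]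
        unfold lin
        rw [map_sum, ← h2 e]
        exact Finset.sum_congr rfl fun j _ => by rw [map_mul, aeval_C, aeval_X]
    exact hle ha
  · show aeval w (X j) = w j
    rw [aeval_X]

theorem hom_ext (I : Ideal R) {r b : ℕ} (M : Fin r → Fin b → R) {D : Type} [CommRing D]
    [Algebra R D] {φ ψ : A I M →ₐ[R] D} (h : ∀ j, φ (z I M j) = ψ (z I M j)) : φ = ψ := by
  apply Ideal.Quotient.algHom_ext
  apply MvPolynomial.algHom_ext
  exact h

theorem elim (I : Ideal R) {r b : ℕ} (M : Fin r → Fin (b + 1) → R) (e₀ : Fin r)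
    (j₀ : Fin (b + 1)) (M' : Fin r → Fin b → R)
    (hM' : ∀ e j, M' e j = M e₀ j₀ * M e (j₀.succAbove j) - M e j₀ * M e₀ (j₀.succAbove j)) :
    Nonempty (Localization.Away (algebraMap R (A I M) (M e₀ j₀)) ≃ₐ[R]
      Localization.Away (algebraMap R (A I M') (M e₀ j₀))) := by
  let a : R := M e₀ j₀
  let x : A I M := algebraMap R (A I M) a
  let x' : A I M' := algebraMap R (A I M') a
  let LA := Localization.Away x
  let LA' := Localization.Away x'
  let i' : LA' := IsLocalization.Away.invSelf x'
  have tow : ∀ t : R, algebraMap R LA t = algebraMap (A I M) LA (algebraMap R (A I M) t) :=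
    fun t => IsScalarTower.algebraMap_apply R (A I M) LA t
  have tow' : ∀ t : R, algebraMap R LA' t = algebraMap (A I M') LA' (algebraMap R (A I M') t) :=
    fun t => IsScalarTower.algebraMap_apply R (A I M') LA' t
  have hi' : algebraMap R LA' a * i' = 1 := by
    rw [tow']
    exact IsLocalization.Away.mul_invSelf x'
  have hu : IsUnit (algebraMap R LA a) := by
    rw [tow]
    exact IsLocalization.Away.algebraMap_isUnit x
  have hu' : IsUnit (algebraMap R LA' a) := IsUnit.of_mul_eq_one _ hi'
  let v : Fin b → LA' := fun j => algebraMap (A I M') LA' (z I M' j)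
  let u : Fin (b + 1) → LA := fun j => algebraMap (A I M) LA (z I M j)
  have hI : ∀ t ∈ I, algebraMap R LA t = 0 := fun t ht => by rw [tow, map_I I M ht, map_zero]
  have hI' : ∀ t ∈ I, algebraMap R LA' t = 0 := fun t ht => by rw [tow', map_I I M' ht, map_zero]
  have hrel : ∀ e, algebraMap R LA (M e j₀) * u j₀ +
      ∑ j, algebraMap R LA (M e (j₀.succAbove j)) * u (j₀.succAbove j) = 0 := by
    intro e
    have h := congrArg (algebraMap (A I M) LA) (rel_z I M e)
    rw [map_sum, map_zero, Fin.sum_univ_succAbove _ j₀] at h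
    simp only [map_mul, ← tow] at h
    exact h
  have hrel' : ∀ e, ∑ j, algebraMap R LA' (M' e j) * v j = 0 := by
    intro e
    have h := congrArg (algebraMap (A I M') LA') (rel_z I M' e)
    rw [map_sum, map_zero] at h
    simp only [map_mul, ← tow'] at h
    exact h
  let s : LA' := ∑ j, algebraMap R LA' (M e₀ (j₀.succAbove j)) * v j
  have hs : ∀ e, algebraMap R LA' a * (∑ j, algebraMap R LA' (M e (j₀.succAbove j)) * v j) =
      algebraMap R LA' (M e j₀) * s := by
    intro e
    have h := hrel' e
    rw [← sub_eq_zero, ← h, Finset.mul_sum, Finset.mul_sum, ← Finset.sum_sub_distrib]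
    refine Finset.sum_congr rfl fun j _ => ?_
    rw [hM', map_sub, map_mul, map_mul]
    ring
  let w : Fin (b + 1) → LA' := j₀.insertNth (-(i' * s)) v
  have hw0 : w j₀ = -(i' * s) := Fin.insertNth_apply_same _ _ _
  have hw : ∀ j, w (j₀.succAbove j) = v j := fun j => Fin.insertNth_apply_succAbove _ _ _ _
  obtain ⟨F1, hF1⟩ := exists_lift I M w hI' (by
    intro e
    apply hu'.mul_left_cancel
    rw [mul_zero, Fin.sum_univ_succAbove _ j₀, mul_add, hw0]
    simp only [hw]
    rw [hs e]
    have h3 : algebraMap R LA' a * (algebraMap R LA' (M e j₀) * -(i' * s)) =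
        -((algebraMap R LA' a * i') * (algebraMap R LA' (M e j₀) * s)) := by ring
    rw [h3, hi']
    ring)
  obtain ⟨G1, hG1⟩ := exists_lift I M' (fun j => u (j₀.succAbove j)) hI (by
    intro e
    have h4 : ∀ e, ∑ j, algebraMap R LA (M e (j₀.succAbove j)) * u (j₀.succAbove j) =
        -(algebraMap R LA (M e j₀) * u j₀) := fun e => by
      rw [eq_neg_iff_add_eq_zero, add_comm]
      exact hrel e
    have h5 : ∑ j, algebraMap R LA (M' e j) * u (j₀.succAbove j) =
        algebraMap R LA a * (∑ j, algebraMap R LA (M e (j₀.succAbove j)) * u (j₀.succAbove j)) -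
        algebraMap R LA (M e j₀) *
          (∑ j, algebraMap R LA (M e₀ (j₀.succAbove j)) * u (j₀.succAbove j)) := by
      rw [Finset.mul_sum, Finset.mul_sum, ← Finset.sum_sub_distrib]
      refine Finset.sum_congr rfl fun j _ => ?_
      rw [hM', map_sub, map_mul, map_mul]
      ring
    rw [h5, h4, h4]
    ring)
  let F : LA →ₐ[R] LA' := IsLocalization.liftAlgHom (M := Submonoid.powers x) (f := F1) (by
    rintro ⟨_, m, rfl⟩
    simp only [map_pow]
    apply IsUnit.pow
    show IsUnit (F1 (algebraMap R (A I M) a))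
    rw [F1.commutes]
    exact hu')
  have hF : ∀ e : A I M, F (algebraMap (A I M) LA e) = F1 e := fun e =>
    IsLocalization.lift_eq _ _
  let G : LA' →ₐ[R] LA := IsLocalization.liftAlgHom (M := Submonoid.powers x') (f := G1) (by
    rintro ⟨_, m, rfl⟩
    simp only [map_pow]
    apply IsUnit.pow
    show IsUnit (G1 (algebraMap R (A I M') a))
    rw [G1.commutes]
    exact hu)
  have hG : ∀ e : A I M', G (algebraMap (A I M') LA' e) = G1 e := fun e =>
    IsLocalization.lift_eq _ _
  have h1 : F.comp G1 = IsScalarTower.toAlgHom R (A I M') LA' := by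
    apply hom_ext
    intro j
    show F (G1 (z I M' j)) = v j
    rw [hG1]
    show F (algebraMap (A I M) LA (z I M (j₀.succAbove j))) = v j
    rw [hF, hF1, hw]
  have h2 : G.comp F1 = IsScalarTower.toAlgHom R (A I M) LA := by
    apply hom_ext
    intro j
    show G (F1 (z I M j)) = u j
    rw [hF1]
    rcases Fin.eq_self_or_eq_succAbove j₀ j with rfl | ⟨j, rfl⟩
    · rw [hw0]
      apply hu.mul_left_cancel
      have e1 : algebraMap R LA a * G (-(i' * s)) = G (-(algebraMap R LA' a * i') * s) := by
        rw [← G.commutes, ← map_mul]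
        congr 1
        ring
      rw [e1, hi', neg_mul, one_mul, map_neg, map_sum]
      have e2 : ∀ t, G (algebraMap R LA' (M e₀ (j.succAbove t)) * v t) =
          algebraMap R LA (M e₀ (j.succAbove t)) * u (j.succAbove t) := by
        intro t
        rw [map_mul, G.commutes]
        show _ * G (algebraMap (A I M') LA' (z I M' t)) = _
        rw [hG, hG1]
      rw [Finset.sum_congr rfl fun t _ => e2 t, neg_eq_iff_eq_neg, eq_neg_iff_add_eq_zero,
        add_comm]
      exact hrel e₀
    · rw [hw]
      show G (algebraMap (A I M') LA' (z I M' j)) = _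
      rw [hG, hG1]
  have h3 : F.comp G = AlgHom.id R LA' := by
    apply AlgHom.coe_ringHom_injective
    apply IsLocalization.ringHom_ext (Submonoid.powers x')
    apply RingHom.ext
    intro e
    show F (G (algebraMap (A I M') LA' e)) = algebraMap (A I M') LA' e
    rw [hG]
    exact congrArg (fun f : A I M' →ₐ[R] LA' => f e) h1
  have h4 : G.comp F = AlgHom.id R LA := by
    apply AlgHom.coe_ringHom_injective
    apply IsLocalization.ringHom_ext (Submonoid.powers x)
    apply RingHom.ext
    intro e
    show G (F (algebraMap (A I M) LA e)) = algebraMap (A I M) LA e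
    rw [hF]
    exact congrArg (fun f : A I M →ₐ[R] LA => f e) h2
  exact ⟨AlgEquiv.ofAlgHom F G h3 h4⟩

/-- The quotient by an element of the base. -/
theorem J_sup (I : Ideal R) {r b : ℕ} (M : Fin r → Fin b → R) (a : R) :
    J (I ⊔ Ideal.span {a}) M = J I M ⊔ Ideal.span {C a} := by
  unfold J
  rw [Ideal.map_sup, Ideal.map_span, Set.image_singleton, sup_right_comm]

/-- If all entries belong to `I`, the linear forms may be omitted. -/
theorem J_eq (I : Ideal R) {r b : ℕ} (M : Fin r → Fin b → R) (h : ∀ e j, M e j ∈ I) :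
    J I M = I.map C := by
  unfold J
  rw [sup_eq_left, Ideal.span_le]
  rintro _ ⟨e, rfl⟩
  refine Ideal.sum_mem _ fun j _ => Ideal.mul_mem_right _ _ (Ideal.mem_map_of_mem C (h e j))

end

variable {k : Type} [Field k]

/-- Linear systems over a ring all of whose quotients satisfy the predicate. -/
theorem main {P : Pred k} (hP : Good P) {R : Type} [CommRing R] [Algebra k R]
    [Algebra.FiniteType k R] (hR : ∀ I : Ideal R, P (R ⧸ I)) (b : ℕ) :
    ∀ (r : ℕ) (M : Fin r → Fin b → R) (I : Ideal R), P (A I M) := by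
  have hlin := Pool.WMC.lin_thm P hP
  have base : ∀ (b r : ℕ) (M : Fin r → Fin b → R) (I : Ideal R), (∀ e j, M e j ∈ I) →
      P (A I M) := by
    intro b r M I h
    have e1 : MvPolynomial (Fin b) (R ⧸ I) ≃ₐ[k] (MvPolynomial (Fin b) R ⧸ I.map C) :=
      (MvPolynomial.quotientEquivQuotientMvPolynomial I).restrictScalars k
    have e2 : (MvPolynomial (Fin b) R ⧸ I.map C) ≃ₐ[k] A I M :=
      Ideal.quotientEquivAlgOfEq k (J_eq I M h).symm
    exact hP.iso _ _ (e1.trans e2) (hlin.mv _ _ (hR I))
  induction b with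
  | zero => exact fun r M I => base 0 r M I fun _ j => j.elim0
  | succ b ihb =>
    intro r M
    have key : ∀ (s : Finset (Fin r × Fin (b + 1))) (I : Ideal R),
        (∀ t ∉ s, M t.1 t.2 ∈ I) → P (A I M) := by
      intro s
      induction s using Finset.induction_on with
      | empty => exact fun I h => base _ r M I fun e j => h (e, j) (by simp)
      | insert t s hts ih =>
        intro I h
        obtain ⟨e₀, j₀⟩ := t
        let a : R := M e₀ j₀
        have ft : Algebra.FiniteType k (A I M) :=
          Algebra.FiniteType.of_surjective (Ideal.Quotient.mkₐ k (J I M))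
            Ideal.Quotient.mk_surjective
        have q : ∀ {b : ℕ} (M : Fin r → Fin b → R), P (A (I ⊔ Ideal.span {a}) M) →
            P (A I M ⧸ Ideal.span {algebraMap R (A I M) a}) := by
          intro b M hq
          have h1 : Ideal.span {algebraMap R (A I M) a} =
              (Ideal.span {C a}).map (Ideal.Quotient.mkₐ k (J I M)) := by
            rw [Ideal.map_span, Set.image_singleton]
            rfl
          exact hP.iso _ _ (((Ideal.quotientEquivAlgOfEq k (J_sup I M a)).trans
            (DoubleQuot.quotQuotEquivQuotSupₐ k (J I M) (Ideal.span {C a})).symm).trans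
            (Ideal.quotientEquivAlgOfEq k h1.symm)) hq
        refine hP.total (A I M) (algebraMap R (A I M) a) ft (q M (ih _ ?_)) ?_
        · intro t ht
          by_cases h2 : t = (e₀, j₀)
          · rw [h2]
            exact (le_sup_right : Ideal.span {a} ≤ I ⊔ Ideal.span {a})
              (Ideal.subset_span rfl)
          · exact (le_sup_left : I ≤ I ⊔ Ideal.span {a})
              (h t (by simp only [Finset.mem_insert, not_or]; exact ⟨h2, ht⟩))
        · obtain ⟨e⟩ := elim I M e₀ j₀ _ fun _ _ => rfl
          exact hP.iso _ _ (e.symm.restrictScalars k) (hP.opn _ _ (ihb r _ I) (q _ (ihb r _ _)))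
    exact fun I => key Finset.univ I fun t ht => absurd (Finset.mem_univ t) ht

end HER

end Pool.H9.WMC
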