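import Pool.Agent.H9.WMC.Fin

/-!
Theories of weight graded pieces of compactly supported cohomology (MP_d037d4_ag).
-/

namespace Pool.H9.WMC

open Module Pool.H73.WM

section
variable {q : ℕ} {Ω : Type} [Field Ω] [CharZero Ω]

/-- `j` is compatible with the powers `F ^ m`, `F ^ n` of the Frobenius maps, and with `N` up to the
factor `c`. -/
def FN.Inter {q q' : ℕ} (M : FN q Ω) (M' : FN q' Ω) (m n : ℕ) (c : Ω) (j : M.V →ₗ[Ω] M'.V) : Prop :=
  (∀ x, j ((M.F ^ m) x) = (M'.F ^ n) (j x)) ∧ ∀ x, j (M.N x) = c • M'.N (j x)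

/-- After replacing the Frobenius maps by positive powers (and `N` by a nonzero multiple) `M` is a
direct summand of `M'`. -/
def FN.SummandOf {q q' : ℕ} (M : FN q Ω) (M' : FN q' Ω) : Prop :=
  ∃ (m n : ℕ) (c : Ω) (j : M.V →ₗ[Ω] M'.V) (r : M'.V →ₗ[Ω] M.V), 0 < m ∧ 0 < n ∧
    q ^ m = q' ^ n ∧ c ≠ 0 ∧ (∀ x, r (j x) = x) ∧ M.Inter M' m n c j ∧ M'.Inter M n m c⁻¹ r

/-- The zero object. -/
def FN.Zero (M : FN q Ω) : Prop := Subsingleton M.V

/-- `F` is the identity and `N` is zero. -/
def FN.Unit (M : FN q Ω) : Prop := ∀ x : M.V, M.F x = x ∧ M.N x = 0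

/-- `f` is a homomorphism and its range is the kernel of `g`. -/
def FN.ExactAt {A B C : FN q Ω} (f : A.V →ₗ[Ω] B.V) (g : B.V →ₗ[Ω] C.V) : Prop :=
  A.IsHom B f ∧ Function.Exact f g

/-- There is a long exact sequence
`... → A_i → B_i → C_i → A_{i+1} → ...` compatible with `F` and `N`. -/
def FN.LongExact (A B C : ℤ → FN q Ω) : Prop :=
  ∃ (a : ∀ i, (A i).V →ₗ[Ω] (B i).V) (b : ∀ i, (B i).V →ₗ[Ω] (C i).V)
    (d : ∀ i, (C i).V →ₗ[Ω] (A (i + 1)).V),
    ∀ i, FN.ExactAt (a i) (b i) ∧ FN.ExactAt (b i) (d i) ∧ FN.ExactAt (d i) (a (i + 1))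

end

/-- The weight graded pieces `gr X w i = gr^W_w H^i_c(X)` of the compactly supported cohomology of
the varieties over `k`, as spaces with Frobenius and monodromy operators.  All the fields are known
facts for Hyodo-Kato cohomology.

* `exact`: the long exact sequence of `(X, Z, U)`;
* `line`, `gm`: the Künneth formula for products with the affine line and the multiplicative group
  (`H^2_c(𝔸^1) = Ω(-1)`, `H^1_c(𝔾_m) = Ω`);
* `pure`: the cohomology of degree `i` of a smooth projective variety has weight `i`. -/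
structure Theory {k : Type} [Field k] (G : Geometry k) (q : ℕ) (Ω : Type) [Field Ω]
    [CharZero Ω] where
  /-- The weight graded pieces. -/
  gr : G.Var → ℤ → ℤ → FN q Ω
  empty : ∀ X w i, G.size X = 0 → (gr X w i).Zero
  pure : ∀ X w i, G.SmProj X → w ≠ i → (gr X w i).Zero
  exact : ∀ X Z U, G.Cut X Z U → ∀ w, FN.LongExact (gr U w) (gr X w) (gr Z w)
  line : ∀ (A : Type) [CommRing A] [Algebra k A] [Algebra.FiniteType k A]
    [Algebra.FiniteType k (Polynomial A)] (w i : ℤ),
    (gr (G.Spec A) w i).Twist (gr (G.Spec (Polynomial A)) (w + 2) (i + 2))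
  gm : ∀ (A : Type) [CommRing A] [Algebra k A] [Algebra.FiniteType k A]
    [Algebra.FiniteType k (Localization.Away (Polynomial.X : Polynomial A))] (w i : ℤ),
    (gr (G.Spec A) w i).SummandOf
      (gr (G.Spec (Localization.Away (Polynomial.X : Polynomial A))) w (i + 1))
  point_pos : ∀ i, i ≠ 0 → (gr (G.Spec k) i i).Zero
  point_zero : (gr (G.Spec k) 0 0).Unit

variable {k : Type} [Field k] {G : Geometry k} {q : ℕ} {Ω : Type} [Field Ω] [CharZero Ω]

/-- Weight-monodromy for a variety: `gr^W_w H^i_c(X)` satisfies weight-monodromy of weight `w`, for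
all `w` and `i`. -/
def Theory.WM (C : Theory G q Ω) (X : G.Var) : Prop :=
  ∀ w i : ℤ, (C.gr X w i).WM w

/-- Weight-monodromy for the spectrum of a finitely generated algebra. -/
def Theory.WMA (C : Theory G q Ω) : Pred k := fun A _ _ =>
  ∃ _ : Algebra.FiniteType k A, C.WM (G.Spec A)

/-- Smooth projective schemes over finite extensions of `ℚ_p` and their Hyodo-Kato cohomology, and
the relation with the varieties over `ℚ` (considered over `ℚ_p`).  All the fields are known facts.

* `Sp`: the pairs `(K, Y)`, `K` a finite extension of `ℚ_p` and `Y` a nonempty smooth projective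
  scheme over `K`; the residue field of `K` has `p ^ deg` elements;
* `H y i`: the cohomology `H^i_HK(Y)`, with the linear Frobenius and the monodromy operator of `K`;
* `descend`: `Y` is, up to a finite extension of `K`, a direct summand for `H_HK` of the base change
  of a smooth projective scheme over `ℚ` of the same dimension (alterations, approximation of
  semistable models, restriction of scalars of a number field);
* `base`: base change from `ℚ` to `ℚ_p`. -/
structure PadicTheory {p : ℕ} {Ω : Type} [Field Ω] [CharZero Ω] {G : Geometry ℚ}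
    (C : Theory G p Ω) where
  /-- Pairs of a finite extension `K` of `ℚ_p` and a smooth projective scheme over `K`. -/
  Sp : Type 1
  /-- The dimension. -/
  dim : Sp → ℕ
  /-- The residue degree of `K`. -/
  deg : Sp → ℕ
  deg_pos : ∀ y, 0 < deg y
  /-- Hyodo-Kato cohomology. -/
  H : (y : Sp) → ℤ → FN (p ^ deg y) Ω
  descend : ∀ y, ∃ Y : G.Var, G.SmProj Y ∧ G.size Y = dim y + 1 ∧
    ∀ i, (H y i).SummandOf (C.gr Y i i)
  base : ∀ Y : G.Var, G.SmProj Y → G.size Y ≠ 0 →
    ∃ y : Sp, G.size Y = dim y + 1 ∧ ∀ i, (C.gr Y i i).SummandOf (H y i)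

theorem FN.SummandOf.summand {q q' : ℕ} {M : FN q Ω} {M' : FN q' Ω} (h : M.SummandOf M') :
    M.Summand M' := by
  obtain ⟨m, n, c, j, r, hm, hn, hq, hc, h1, ⟨h2, h3⟩, h4, h5⟩ := h
  refine ⟨m, n, c, j, r, hm, hn, hq, hc, h1, h2, h4, h3, fun y => ?_⟩
  rw [map_smul, h5, smul_smul, mul_inv_cancel₀ hc, one_smul]

/-- The conversion. -/
def Theory.toC (C : Theory G q Ω) : Cohomology G q Ω where
  gr := C.gr
  empty := C.empty
  pure := C.pure
  exact := fun X Z U h w => by
    obtain ⟨a, b, d, h1⟩ := C.exact X Z U h w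
    exact ⟨a, b, d, fun i => (h1 i).1.1, fun i => (h1 i).2.1.1, fun i => (h1 i).2.2.1,
      fun i => (h1 i).1.2, fun i => (h1 i).2.1.2, fun i => (h1 i).2.2.2⟩
  line := C.line
  gm := fun A _ _ _ _ w i => (C.gm A w i).summand
  point_pos := C.point_pos
  point_zero := C.point_zero

/-- The conversion. -/
def PadicTheory.toP {p : ℕ} {G : Geometry ℚ} {C : Theory G p Ω} (T : PadicTheory C) :
    Padic C.toC where
  Sp := T.Sp
  dim := T.dim
  deg := T.deg
  deg_pos := T.deg_pos
  H := T.H
  descend := fun y => by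
    obtain ⟨Y, h1, h2, h3⟩ := T.descend y
    exact ⟨Y, h1, h2, fun i => (h3 i).summand⟩
  base := fun Y h0 h1 => by
    obtain ⟨y, h2, h3⟩ := T.base Y h0 h1
    exact ⟨y, h2, fun i => (h3 i).summand⟩

end Pool.H9.WMC
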