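import Pool.Agent.H9.WMC.Alg
import Pool.Agent.H9.WMC.Lin

/-!
The theory of the weight graded pieces of compactly supported Hyodo-Kato cohomology (MP_d037d4_ag).
-/

namespace Pool.H9.WMC

open Module Pool.H73.WM

/-- Elementary geometry of varieties over a field `k` of characteristic zero (separated schemes of
finite type over `k`).  All the fields are known facts.

* `size X` is the dimension of `X` plus one, and `0` for the empty variety;
* `Cut X Z U`: up to nilpotents, `Z` is a closed subscheme and `U` is an open subscheme of `X`, and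
  these are complementary subsets of `X`;
* `affine`: a nonempty variety of dimension `n` has (up to nilpotents) a dense open subset
  isomorphic to a locally closed subscheme of `𝔸^{n+1}` (closed in a principal open subset);
* `resolution`: it has a dense open subset which is also dense and open in a smooth projective
  variety `Y` (Hironaka);
* `size_cut`, `size_closed`: `dim X` is the maximum of `dim Z` and `dim U`, and the dimension of a
  proper closed subscheme of `𝔸^m` is smaller than `m`. -/
structure Geometry (k : Type) [Field k] where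
  /-- The varieties. -/
  Var : Type 1
  /-- Dimension plus one. -/
  size : Var → ℕ
  /-- Smooth projective (not necessarily connected) varieties. -/
  SmProj : Var → Prop
  /-- Closed-open decompositions. -/
  Cut : Var → Var → Var → Prop
  /-- The spectrum of a finitely generated algebra. -/
  Spec : ∀ (A : Type) [CommRing A] [Algebra k A] [Algebra.FiniteType k A], Var
  cut_iso : ∀ (A B : Type) [CommRing A] [Algebra k A] [Algebra.FiniteType k A]
    [CommRing B] [Algebra k B] [Algebra.FiniteType k B], (A ≃ₐ[k] B) →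
    ∃ O, size O = 0 ∧ Cut (Spec A) O (Spec B)
  cut_spec : ∀ (A : Type) [CommRing A] [Algebra k A] [Algebra.FiniteType k A] (h : A)
    [Algebra.FiniteType k (Localization.Away h)],
    Cut (Spec A) (Spec (A ⧸ Ideal.span {h})) (Spec (Localization.Away h))
  affine : ∀ X, size X ≠ 0 → ∃ (Z : Var) (r : ℕ) (f : Fin r → MvPolynomial (Fin (size X)) k)
    (g : Quo f) (_ : Algebra.FiniteType k (Localization.Away g)),
    size Z < size X ∧ Cut X Z (Spec (Localization.Away g))
  resolution : ∀ X, size X ≠ 0 → ∃ Z U Y D : Var, size Z < size X ∧ size D < size X ∧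
    Cut X Z U ∧ Cut Y D U ∧ SmProj Y
  point : SmProj (Spec k)
  size_cut : ∀ X Z U, Cut X Z U → size X = max (size Z) (size U)
  size_closed : ∀ (m r : ℕ) (f : Fin r → MvPolynomial (Fin m) k), (∃ e, f e ≠ 0) →
    size (Spec (Quo f)) ≤ m

/-- The weight graded pieces `gr X w i = gr^W_w H^i_c(X)` of the compactly supported cohomology of
the varieties over `k`, as spaces with Frobenius and monodromy operators.  All the fields are known
facts.

* `exact`: the long exact sequence of `(X, Z, U)`;
* `line`, `gm`: the Künneth formula for products with the affine line and the multiplicative group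
  (`H^2_c(𝔸^1) = Ω(-1)`, `H^1_c(𝔾_m) = Ω`);
* `pure`: the cohomology of degree `i` of a smooth projective variety has weight `i`. -/
structure Cohomology {k : Type} [Field k] (G : Geometry k) (q : ℕ) (Ω : Type) [Field Ω]
    [CharZero Ω] where
  /-- The weight graded pieces. -/
  gr : G.Var → ℤ → ℤ → FN q Ω
  empty : ∀ X w i, G.size X = 0 → Subsingleton (gr X w i).V
  pure : ∀ X w i, G.SmProj X → w ≠ i → Subsingleton (gr X w i).V
  exact : ∀ X Z U, G.Cut X Z U → ∀ w : ℤ,
    ∃ (a : ∀ i, (gr U w i).V →ₗ[Ω] (gr X w i).V) (b : ∀ i, (gr X w i).V →ₗ[Ω] (gr Z w i).V)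
      (d : ∀ i, (gr Z w i).V →ₗ[Ω] (gr U w (i + 1)).V),
      (∀ i, (gr U w i).IsHom (gr X w i) (a i)) ∧ (∀ i, (gr X w i).IsHom (gr Z w i) (b i)) ∧
      (∀ i, (gr Z w i).IsHom (gr U w (i + 1)) (d i)) ∧
      (∀ i, Function.Exact (a i) (b i)) ∧ (∀ i, Function.Exact (b i) (d i)) ∧
      (∀ i, Function.Exact (d i) (a (i + 1)))
  line : ∀ (A : Type) [CommRing A] [Algebra k A] [Algebra.FiniteType k A]
    [Algebra.FiniteType k (Polynomial A)] (w i : ℤ),
    (gr (G.Spec A) w i).Twist (gr (G.Spec (Polynomial A)) (w + 2) (i + 2))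
  gm : ∀ (A : Type) [CommRing A] [Algebra k A] [Algebra.FiniteType k A]
    [Algebra.FiniteType k (Localization.Away (Polynomial.X : Polynomial A))] (w i : ℤ),
    (gr (G.Spec A) w i).Summand
      (gr (G.Spec (Localization.Away (Polynomial.X : Polynomial A))) w (i + 1))
  point_pos : ∀ i ≠ 0, Subsingleton (gr (G.Spec k) i i).V
  point_zero : ∀ x : (gr (G.Spec k) 0 0).V,
    (gr (G.Spec k) 0 0).F x = x ∧ (gr (G.Spec k) 0 0).N x = 0

variable {k : Type} [Field k] {G : Geometry k} {q : ℕ} {Ω : Type} [Field Ω] [CharZero Ω]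

/-- Weight-monodromy for an arbitrary variety: `gr^W_w H^i_c(X)` satisfies weight-monodromy of
weight `w`, for all `w` and `i`. -/
def Cohomology.WM (C : Cohomology G q Ω) (X : G.Var) : Prop :=
  ∀ w i : ℤ, (C.gr X w i).WM w

/-- Weight-monodromy for the spectrum of a finitely generated algebra. -/
def Cohomology.WMA (C : Cohomology G q Ω) : Pred k := fun A _ _ =>
  ∃ _ : Algebra.FiniteType k A, C.WM (G.Spec A)

/-- GOO: the two-out-of-three property, in general and for algebras. -/
def GOOStmt : Prop := ∀ {k : Type} [Field k] (G : Geometry k) {q : ℕ} {Ω : Type} [Field Ω]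
  [CharZero Ω] [IsAlgClosed Ω], 1 < q → ∀ C : Cohomology G q Ω,
  (∀ X Z U, G.Cut X Z U → C.WM Z → C.WM U → C.WM X) ∧
  (∀ X Z U, G.Cut X Z U → C.WM X → C.WM U → C.WM Z) ∧
  (∀ X Z U, G.Cut X Z U → C.WM X → C.WM Z → C.WM U) ∧
  (∀ X, G.size X = 0 → C.WM X) ∧
  C.WMA k ∧ Good C.WMA

/-- GEO: smooth projective varieties, algebras, all varieties. -/
def GEOStmt : Prop := ∀ {k : Type} [Field k] (G : Geometry k) {q : ℕ} {Ω : Type} [Field Ω]
  [CharZero Ω] [IsAlgClosed Ω], 1 < q → ∀ C : Cohomology G q Ω,
  ((∀ Y, G.SmProj Y → ∀ i : ℤ, (C.gr Y i i).WM i) → ∀ X, C.WM X) ∧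
  ∀ m : ℕ, (∀ (r : ℕ) (f : Fin r → MvPolynomial (Fin m) k), C.WMA (Quo f)) →
    ∀ X, G.size X ≤ m → C.WM X

end Pool.H9.WMC
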